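import Pool.Agent.Helper96.KS.Parts

/-!
# KS part DNC: no collision if the ball is a tree
-/

set_option autoImplicit false

open Finset

namespace KS.DNC_helper16

open scoped Classical
open Inst

variable {K : ℕ} {I : Inst K}

/-- end of a path -/
def en (x : I.H) (l : List I.H) : I.H := (x :: l).getLast (List.cons_ne_nil x l)

theorem en_nil (x : I.H) : en x [] = x := rfl

theorem en_concat (x a : I.H) (l : List I.H) : en x (l ++ [a]) = a := by
  unfold en
  simp

theorem chain_concat {η : I.H → I.H} {x a : I.H} {l : List I.H}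
    (h : List.IsChain (Nb η) (x :: (l ++ [a]))) :
    List.IsChain (Nb η) (x :: l) ∧ Nb η (en x l) a := by
  rw [← List.cons_append, List.isChain_append] at h
  refine ⟨h.1, h.2.2 _ ?_ a (by simp)⟩
  unfold en
  rw [List.getLast?_eq_getLast_of_ne_nil (List.cons_ne_nil x l)]
  rfl

theorem concat_chain {η : I.H → I.H} {x a : I.H} {l : List I.H}
    (h : List.IsChain (Nb η) (x :: l)) (h' : Nb η (en x l) a) :
    List.IsChain (Nb η) (x :: (l ++ [a])) := by
  rw [← List.cons_append, List.isChain_append]
  refine ⟨h, List.isChain_singleton a, ?_⟩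
  intro y hy z hz
  rw [List.getLast?_eq_getLast_of_ne_nil (List.cons_ne_nil x l)] at hy
  simp only [Option.mem_def, Option.some.injEq, List.head?_cons] at hy hz
  rw [← hy, ← hz]
  exact h'

theorem pick_spec {s : ℕ} {om : ℝ} {S : I.St} {u : I.H} (h : pick s om S = some u) :
    u ∈ procs s om S ∧ ∀ b ∈ procs s om S, S.dep u ≤ S.dep b := by
  unfold pick at h
  split_ifs at h with hne
  have hs := Classical.choose_spec (Finset.exists_min_image (procs s om S) S.dep hne)
  have e : Classical.choose (Finset.exists_min_image (procs s om S) S.dep hne) = u := by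
    simpa using h
  rw [e] at hs
  exact hs

/-- invariant of the first phase -/
structure J1 (r : ℕ) (η : I.H → I.H) (D F : Finset I.H) (x : I.H) (S : I.St) : Prop where
  i1 : ∀ a ∈ S.L, ∃ l : List I.H, List.IsChain (Nb η) (x :: l) ∧ en x l = a ∧
    l.length = S.dep a ∧ S.dep a ≤ r ∧ ∀ l' : List I.H, l = l' ++ [a] → en x l' ∈ S.D
  i2 : ∀ h ∈ S.D, h ∈ D ∨
    (∃ l : List I.H, List.IsChain (Nb η) (x :: l) ∧ en x l = h ∧ l.length < r ∧
      ∀ l' : List I.H, l = l' ++ [h] → en x l' ∈ S.D) ∨
    (∃ l : List I.H, List.IsChain (Nb η) (x :: l) ∧ η (en x l) = h ∧ l.length < r ∧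
      en x l ∈ S.D)
  i3 : S.F = F
  i4 : ∀ a ∈ S.L, a ∉ S.D

/-- invariant of the second phase -/
def J2 (r s : ℕ) (om : ℝ) (S : I.St) : Prop := ∀ a ∈ procs s om S, r ≤ S.dep a

theorem J2_nxt {r s : ℕ} {om : ℝ} {S : I.St} (h : J2 r s om S) {u v : I.H}
    (hu : u ∈ procs s om S) : J2 r s om (nxt S u v) := by
  intro a ha
  have hru := h u hu
  unfold nxt at ha ⊢
  split_ifs at ha ⊢ with hf
  · simp only [procs, mem_filter, mem_union, mem_erase] at ha
    obtain ⟨haL, hd, hw⟩ := ha
    show r ≤ (if a ∈ I.ch v then S.dep u + 1 else S.dep a)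
    by_cases hc : a ∈ I.ch v
    · rw [if_pos hc]; omega
    · rw [if_neg hc]
      rw [if_neg hc] at hd
      rw [if_neg hc] at hw
      apply h a
      simp only [procs, mem_filter]
      exact ⟨(haL.resolve_right hc).2, hd, hw⟩
  · simp only [procs, mem_filter, mem_erase] at ha
    exact h a (by
      simp only [procs, mem_filter]
      exact ⟨ha.1.2.2, ha.2.1, ha.2.2⟩)

/-- the key step: a collision gives `Bad` -/
theorem fresh_of_J1 {r : ℕ} {η : I.H → I.H} {D F : Finset I.H} {x : I.H} {S : I.St}
    (hinv : ∀ y, η (η y) = y)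
    (hJ : J1 r η D F x S) (hB : ¬ Bad r η x)
    (hav : ∀ l : List I.H, List.IsChain (Nb η) (x :: l) → l.length ≤ r →
      ∀ h ∈ D ∪ F, h.1 ≠ endv η x l)
    {u : I.H} (hu : u ∈ S.L) (hr : S.dep u < r) : Fresh S (η u) := by
  obtain ⟨l, hl1, hl2, hl3, hl4, hl5⟩ := hJ.i1 u hu
  have hlen : l.length ≤ r := by omega
  have hend : endv η x l = (η u).1 := by
    show (η (en x l)).1 = (η u).1
    rw [hl2]
  have huD : u ∉ S.D := hJ.i4 u hu
  -- a half-edge at the vertex of `η u` which is the end of a path with processed parent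
  have key : ∀ (h : I.H) (l'' : List I.H), h.1 = (η u).1 → List.IsChain (Nb η) (x :: l'') →
      en x l'' = h → l''.length ≤ r → (∀ l' : List I.H, l'' = l' ++ [h] → en x l' ∈ S.D) →
      False := by
    intro h l'' hh hc he hle hp
    rcases List.eq_nil_or_concat l'' with h0 | ⟨l', b, h0⟩
    · subst h0
      rw [en_nil] at he
      apply hB
      refine ⟨l, l, hl1, hl1, hlen, hlen, Or.inr ?_⟩
      rw [hend, ← hh, ← he]
    · rw [List.concat_eq_append] at h0
      subst h0
      rw [en_concat] at he
      subst he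
      have hD := hp l' rfl
      obtain ⟨hc1, hc2⟩ := chain_concat hc
      have hle' : l'.length ≤ r := by
        rw [List.length_append, List.length_singleton] at hle; omega
      have he' : endv η x l' = endv η x l := by
        rw [hend, ← hh]
        exact hc2.1.symm
      by_cases hll : l' = l
      · subst hll
        rw [hl2] at hD
        exact huD hD
      · exact hB ⟨l', l, hc1, hl1, hle', hlen, Or.inl ⟨hll, he'⟩⟩
  intro h hh
  refine ⟨fun hD => ?_, fun hL => ?_, fun hF => ?_⟩
  · rcases hJ.i2 h hD with h1 | ⟨l'', a1, a2, a3, a4⟩ | ⟨l'', a1, a2, a3, a4⟩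
    · exact hav l hl1 hlen h (mem_union_left _ h1) (by rw [hend]; exact hh)
    · exact key h l'' hh a1 a2 (by omega) a4
    · have he' : endv η x l'' = endv η x l := by
        rw [hend, ← hh, ← a2]
        rfl
      by_cases hll : l'' = l
      · subst hll
        rw [hl2] at a4
        exact huD a4
      · exact hB ⟨l'', l, a1, hl1, by omega, hlen, Or.inl ⟨hll, he'⟩⟩
  · obtain ⟨l'', a1, a2, a3, a4, a5⟩ := hJ.i1 h hL
    exact key h l'' hh a1 a2 (by omega) a5
  · rw [hJ.i3] at hF
    exact hav l hl1 hlen h (mem_union_right _ hF) (by rw [hend]; exact hh)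

theorem J1_nxt {r : ℕ} {η : I.H → I.H} {D F : Finset I.H} {x : I.H} {S : I.St}
    (hJ : J1 r η D F x S) {u : I.H} (hu : u ∈ S.L) (hr : S.dep u < r)
    (hf : Fresh S (η u)) : J1 r η D F x (nxt S u (η u)) := by
  obtain ⟨l, hl1, hl2, hl3, hl4, hl5⟩ := hJ.i1 u hu
  have hmem : ∀ a : I.H, a ∈ I.ch (η u) ↔ a.1 = (η u).1 ∧ a ≠ η u := by
    intro a
    simp only [Inst.ch, mem_filter, mem_univ, true_and]
  unfold nxt
  rw [if_pos hf]
  refine ⟨?_, ?_, hJ.i3, ?_⟩
  · intro a ha
    show ∃ l : List I.H, List.IsChain (Nb η) (x :: l) ∧ en x l = a ∧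
      l.length = (if a ∈ I.ch (η u) then S.dep u + 1 else S.dep a) ∧
      (if a ∈ I.ch (η u) then S.dep u + 1 else S.dep a) ≤ r ∧
      ∀ l' : List I.H, l = l' ++ [a] → en x l' ∈ insert u (insert (η u) S.D)
    have ha' : a ∈ (S.L.erase u) ∪ I.ch (η u) := ha
    by_cases hc : a ∈ I.ch (η u)
    · rw [if_pos hc]
      have hc' := (hmem a).1 hc
      refine ⟨l ++ [a], concat_chain hl1 ?_, en_concat x a l, ?_, by omega, ?_⟩
      · rw [hl2]; exact hc'
      · rw [List.length_append, List.length_singleton, hl3]
      · intro l' hl'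
        have : l' = l := (List.append_inj_left' hl' rfl).symm
        rw [this, hl2]
        exact mem_insert_self _ _
    · rw [if_neg hc]
      rw [mem_union, mem_erase] at ha'
      obtain ⟨m, m1, m2, m3, m4, m5⟩ := hJ.i1 a (ha'.resolve_right hc).2
      exact ⟨m, m1, m2, m3, m4, fun l' hl' => mem_insert_of_mem (mem_insert_of_mem (m5 l' hl'))⟩
  · intro h hh
    have hh' : h ∈ insert u (insert (η u) S.D) := hh
    show h ∈ D ∨
      (∃ l : List I.H, List.IsChain (Nb η) (x :: l) ∧ en x l = h ∧ l.length < r ∧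
        ∀ l' : List I.H, l = l' ++ [h] → en x l' ∈ insert u (insert (η u) S.D)) ∨
      (∃ l : List I.H, List.IsChain (Nb η) (x :: l) ∧ η (en x l) = h ∧ l.length < r ∧
        en x l ∈ insert u (insert (η u) S.D))
    rw [mem_insert, mem_insert] at hh'
    rcases hh' with h1 | h1 | h1
    · subst h1
      refine Or.inr (Or.inl ⟨l, hl1, hl2, by omega, fun l' hl' => ?_⟩)
      exact mem_insert_of_mem (mem_insert_of_mem (hl5 l' hl'))
    · subst h1
      refine Or.inr (Or.inr ⟨l, hl1, by rw [hl2], by omega, ?_⟩)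
      rw [hl2]
      exact mem_insert_self _ _
    · rcases hJ.i2 h h1 with a | ⟨m, m1, m2, m3, m4⟩ | ⟨m, m1, m2, m3, m4⟩
      · exact Or.inl a
      · exact Or.inr (Or.inl ⟨m, m1, m2, m3,
          fun l' hl' => mem_insert_of_mem (mem_insert_of_mem (m4 l' hl'))⟩)
      · exact Or.inr (Or.inr ⟨m, m1, m2, m3, mem_insert_of_mem (mem_insert_of_mem m4)⟩)
  · intro a ha
    have ha' : a ∈ (S.L.erase u) ∪ I.ch (η u) := ha
    show a ∉ insert u (insert (η u) S.D)
    rw [mem_insert, mem_insert]
    rw [mem_union, mem_erase] at ha'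
    rintro (h1 | h1 | h1)
    · subst h1
      rcases ha' with h2 | h2
      · exact h2.1 rfl
      · exact (hf a ((hmem a).1 h2).1).2.1 hu
    · subst h1
      rcases ha' with h2 | h2
      · exact (hf (η u) rfl).2.1 h2.2
      · exact ((hmem _).1 h2).2 rfl
    · rcases ha' with h2 | h2
      · exact hJ.i4 a h2.2 h1
      · exact (hf a ((hmem a).1 h2).1).1 h1

theorem main : KS.S_DNC := by
  intro K Δ I hV r s om η D F x hom hη hD hxD hxF hB hav k
  have hinv : ∀ y, η (η y) = y := by
    simp only [Inst.Om, mem_filter, mem_univ, true_and] at hη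
    exact hη.1
  have gen : ∀ (k : ℕ) (S : I.St), (J1 r η D F x S ∨ J2 r s om S) → NC r s om η k S := by
    intro k
    induction k with
    | zero => intro S _; trivial
    | succ k ih =>
      intro S hS
      show (∀ u, pick s om S = some u → S.dep u < r → Fresh S (η u)) ∧
        NC r s om η k (stp s om η S)
      rcases hp : pick s om S with _ | u
      · refine ⟨fun u hu => by simp at hu, ?_⟩
        have : stp s om η S = S := by
          unfold stp
          rw [hp]
        rw [this]
        exact ih S hS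
      · obtain ⟨hu1, hu2⟩ := pick_spec hp
        have hst : stp s om η S = nxt S u (η u) := by
          unfold stp
          rw [hp]
        rw [hst]
        have huL : u ∈ S.L := by
          simp only [procs, mem_filter] at hu1
          exact hu1.1
        rcases hS with hS | hS
        · by_cases hr : S.dep u < r
          · have hf := fresh_of_J1 hinv hS hB hav huL hr
            refine ⟨fun u' hu' _ => ?_, ih _ (Or.inl (J1_nxt hS huL hr hf))⟩
            simp only [Option.some.injEq] at hu'
            rw [← hu']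
            exact hf
          · have hJ2 : J2 r s om S := fun a ha => le_trans (not_lt.mp hr) (hu2 a ha)
            refine ⟨fun u' hu' h' => ?_, ih _ (Or.inr (J2_nxt hJ2 hu1))⟩
            simp only [Option.some.injEq] at hu'
            rw [← hu'] at h'
            exact absurd h' hr
        · refine ⟨fun u' hu' h' => ?_, ih _ (Or.inr (J2_nxt hS hu1))⟩
          simp only [Option.some.injEq] at hu'
          rw [← hu'] at h'
          exact absurd (hS u hu1) (not_le.mpr h')
  refine gen k _ (Or.inl ⟨?_, ?_, rfl, ?_⟩)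
  · intro a ha
    have ha' : a = x := by
      have : a ∈ ({x} : Finset I.H) := ha
      exact mem_singleton.mp this
    subst ha'
    refine ⟨[], List.isChain_singleton _, rfl, rfl, Nat.zero_le r, ?_⟩
    intro l' hl'
    exact absurd hl'.symm (by simp)
  · intro h hh
    exact Or.inl hh
  · intro a ha
    have ha' : a = x := by
      have : a ∈ ({x} : Finset I.H) := ha
      exact mem_singleton.mp this
    rw [ha']
    exact hxD

end KS.DNC_helper16
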