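import Pool.Agent.Helper96.KS.Parts

/-!
# KS part PL1: the exact law of the partner of a free half-edge
-/

set_option autoImplicit false

open Finset

namespace KS.PL1_helper16

open scoped Classical
open Inst

variable {K : ℕ} (I : Inst K)

/-- conjugation by a transposition -/
noncomputable def cj (w w' : I.H) (η : I.H → I.H) : I.H → I.H :=
  fun x => Equiv.swap w w' (η (Equiv.swap w w' x))

theorem cj_cj (w w' : I.H) (η : I.H → I.H) : cj I w w' (cj I w w' η) = η := by
  funext x; simp [cj]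

theorem c_swap {w w' : I.H} (h : I.c w = I.c w') (x : I.H) :
    I.c (Equiv.swap w w' x) = I.c x := by
  rw [Equiv.swap_apply_def]
  split_ifs with h1 h2
  · rw [h1, h]
  · rw [h2, h]
  · rfl

theorem cj_mem_Om {w w' : I.H} (h : I.c w = I.c w') {η : I.H → I.H} (hη : η ∈ I.Om) :
    cj I w w' η ∈ I.Om := by
  simp only [Inst.Om, mem_filter, mem_univ, true_and] at hη ⊢
  obtain ⟨h1, h2, h3⟩ := hη
  refine ⟨fun x => by simp [cj, h1], fun x hx => h2 (Equiv.swap w w' x) ?_, fun k l hkl => ?_⟩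
  · have := congrArg (Equiv.swap w w') hx
    simpa [cj] using this
  · rw [← h3 k l hkl]
    refine Finset.card_bij (fun x _ => Equiv.swap w w' x) ?_ ?_ ?_
    · intro x hx
      simp only [mem_filter, mem_univ, true_and] at hx ⊢
      refine ⟨by rw [c_swap I h]; exact hx.1, ?_⟩
      have := hx.2
      simpa only [cj, c_swap I h] using this
    · intro a _ b _ hab
      exact (Equiv.swap w w').injective hab
    · intro b hb
      refine ⟨Equiv.swap w w' b, ?_, by simp⟩
      simp only [mem_filter, mem_univ, true_and] at hb ⊢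
      refine ⟨by rw [c_swap I h]; exact hb.1, ?_⟩
      simp only [cj, c_swap I h, Equiv.swap_apply_self]
      exact hb.2

theorem mem_Cls {η0 η : I.H → I.H} {D : Finset I.H} :
    η ∈ I.Cls η0 D ↔ η ∈ I.Om ∧ ∀ x ∈ D, η x = η0 x := by
  simp only [Inst.Cls, mem_filter]

theorem cj_mem_Cls {η0 η : I.H → I.H} {D : Finset I.H} (hD : ∀ x ∈ D, η0 x ∈ D) {w w' : I.H}
    (h : I.c w = I.c w') (hw : w ∉ D) (hw' : w' ∉ D) (hη : η ∈ I.Cls η0 D) :
    cj I w w' η ∈ I.Cls η0 D := by
  rw [mem_Cls] at hη ⊢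
  refine ⟨cj_mem_Om I h hη.1, fun x hx => ?_⟩
  have e1 : Equiv.swap w w' x = x :=
    Equiv.swap_apply_of_ne_of_ne (fun e => hw (e ▸ hx)) (fun e => hw' (e ▸ hx))
  have e2 : Equiv.swap w w' (η0 x) = η0 x :=
    Equiv.swap_apply_of_ne_of_ne (fun e => hw (e ▸ hD x hx)) (fun e => hw' (e ▸ hD x hx))
  simp only [cj]
  rw [e1, hη.2 x hx, e2]

/-- transport of a count by conjugation -/
theorem card_cj {η0 : I.H → I.H} {D : Finset I.H} (hD : ∀ x ∈ D, η0 x ∈ D) {w w' : I.H}
    (h : I.c w = I.c w') (hw : w ∉ D) (hw' : w' ∉ D) (P Q : (I.H → I.H) → Prop)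
    [DecidablePred P] [DecidablePred Q]
    (hPQ : ∀ η, P η → Q (cj I w w' η)) (hQP : ∀ η, Q η → P (cj I w w' η)) :
    ((I.Cls η0 D).filter P).card = ((I.Cls η0 D).filter Q).card := by
  refine Finset.card_bij (fun η _ => cj I w w' η) ?_ ?_ ?_
  · intro η hη
    rw [mem_filter] at hη ⊢
    exact ⟨cj_mem_Cls I hD h hw hw' hη.1, hPQ η hη.2⟩
  · intro a _ b _ hab
    have := congrArg (cj I w w') hab
    rwa [cj_cj, cj_cj] at this
  · intro η hη
    rw [mem_filter] at hη
    refine ⟨cj I w w' η, ?_, cj_cj I w w' η⟩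
    rw [mem_filter]
    exact ⟨cj_mem_Cls I hD h hw hw' hη.1, hQP η hη.2⟩

/-- `n(u,v) = n(u,v')` -/
theorem card_eq_right {η0 : I.H → I.H} {D : Finset I.H} (hD : ∀ x ∈ D, η0 x ∈ D) {u v v' : I.H}
    (h : I.c v = I.c v') (hv : v ∉ D) (hv' : v' ∉ D) (huv : v ≠ u) (huv' : v' ≠ u) :
    ((I.Cls η0 D).filter fun η => η u = v).card = ((I.Cls η0 D).filter fun η => η u = v').card := by
  have e : Equiv.swap v v' u = u := Equiv.swap_apply_of_ne_of_ne huv.symm huv'.symm
  refine card_cj I hD h hv hv' _ _ ?_ ?_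
  · intro η hη
    simp only [cj]
    rw [e, hη, Equiv.swap_apply_left]
  · intro η hη
    simp only [cj]
    rw [e, hη, Equiv.swap_apply_right]

/-- `m(u,l) = m(u',l)` -/
theorem card_eq_left {η0 : I.H → I.H} {D : Finset I.H} (hD : ∀ x ∈ D, η0 x ∈ D) {u u' : I.H}
    (h : I.c u = I.c u') (hu : u ∉ D) (hu' : u' ∉ D) (l : Fin K) :
    ((I.Cls η0 D).filter fun η => I.c (η u) = l).card
      = ((I.Cls η0 D).filter fun η => I.c (η u') = l).card := by
  refine card_cj I hD h hu hu' _ _ ?_ ?_
  · intro η hη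
    simp only [cj]
    rw [Equiv.swap_apply_right, c_swap I h, hη]
  · intro η hη
    simp only [cj]
    rw [Equiv.swap_apply_left, c_swap I h, hη]

theorem free_partner {η0 η : I.H → I.H} {D : Finset I.H} (hD : ∀ x ∈ D, η0 x ∈ D)
    (hη : η ∈ I.Cls η0 D) {u : I.H} (hu : u ∉ D) : η u ∉ D := by
  rw [mem_Cls] at hη
  intro hx
  have h1 := hη.2 _ hx
  have h2 : η (η u) = u := by
    have := hη.1
    simp only [Inst.Om, mem_filter, mem_univ, true_and] at this
    exact this.1 u
  exact hu (by rw [← h2, h1]; exact hD _ hx)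

theorem ne_partner {η0 η : I.H → I.H} {D : Finset I.H} 
    (hη : η ∈ I.Cls η0 D) (u : I.H) : η u ≠ u := by
  rw [mem_Cls] at hη
  have := hη.1
  simp only [Inst.Om, mem_filter, mem_univ, true_and] at this
  exact this.2.1 u

/-- `m(u,l)` is the number of free `v ≠ u` in `H_l` times `n(u,v)` -/
theorem m_eq {η0 : I.H → I.H} {D : Finset I.H} (hD : ∀ x ∈ D, η0 x ∈ D) {u v : I.H}
    (hu : u ∉ D) (hv : v ∉ D) (huv : v ≠ u) :
    ((I.Cls η0 D).filter fun η => I.c (η u) = I.c v).card
      = (((I.Hk (I.c v)) \ D).erase u).card * ((I.Cls η0 D).filter fun η => η u = v).card := by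
  have h1 : ((I.Cls η0 D).filter fun η => I.c (η u) = I.c v).card
      = ∑ w ∈ ((I.Hk (I.c v)) \ D).erase u,
        (((I.Cls η0 D).filter fun η => I.c (η u) = I.c v).filter fun η => η u = w).card := by
    refine Finset.card_eq_sum_card_fiberwise ?_
    intro η hη
    have hη' : η ∈ (I.Cls η0 D).filter fun η => I.c (η u) = I.c v := hη
    rw [mem_filter] at hη'
    show η u ∈ ((I.Hk (I.c v)) \ D).erase u
    rw [mem_erase, mem_sdiff]
    refine ⟨ne_partner I hη'.1 u, ?_, free_partner I hD hη'.1 hu⟩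
    simp only [Inst.Hk, mem_filter, mem_univ, true_and]
    exact hη'.2
  rw [h1, Finset.sum_congr rfl (g := fun _ => ((I.Cls η0 D).filter fun η => η u = v).card),
    Finset.sum_const, smul_eq_mul]
  intro w hw
  rw [mem_erase, mem_sdiff] at hw
  have hcw : I.c w = I.c v := by
    have := hw.2.1
    simpa only [Inst.Hk, mem_filter, mem_univ, true_and] using this
  rw [card_eq_right I hD hcw.symm hv hw.2.2 huv hw.1, Finset.filter_filter]
  congr 1
  ext η
  simp only [mem_filter]
  constructor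
  · rintro ⟨a, b, c⟩
    exact ⟨a, c⟩
  · rintro ⟨a, c⟩
    exact ⟨a, by rw [c, hcw], c⟩

/-- the number of free half-edges of `H_k` whose partner is in `H_l` -/
theorem cnt {η0 η : I.H → I.H} {D : Finset I.H}
    (hη : η ∈ I.Cls η0 D) {k l : Fin K} (hkl : k ≠ l) :
    ((((I.Hk k) \ D).filter fun x => I.c (η x) = l).card : ℝ)
      = (I.p : ℝ) - (D.filter fun x => I.c x = k ∧ I.c (η0 x) = l).card := by
  rw [mem_Cls] at hη
  have h0 := hη.1
  simp only [Inst.Om, mem_filter, mem_univ, true_and] at h0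
  have h3 := h0.2.2 k l hkl
  have e : (univ.filter fun x : I.H => I.c x = k ∧ I.c (η x) = l)
      = (((I.Hk k) \ D).filter fun x => I.c (η x) = l) ∪
        (D.filter fun x => I.c x = k ∧ I.c (η0 x) = l) := by
    ext x
    simp only [mem_filter, mem_univ, true_and, mem_union, mem_sdiff, Inst.Hk]
    by_cases hx : x ∈ D
    · rw [hη.2 x hx]; tauto
    · tauto
  have hd : Disjoint (((I.Hk k) \ D).filter fun x => I.c (η x) = l)
        (D.filter fun x => I.c x = k ∧ I.c (η0 x) = l) := by
    rw [Finset.disjoint_left]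
    intro x hx hx'
    simp only [mem_filter, mem_sdiff] at hx hx'
    exact hx.1.2 hx'.1
  rw [e, Finset.card_union_of_disjoint hd] at h3
  have h4 : ((((I.Hk k) \ D).filter fun x => I.c (η x) = l).card : ℝ)
      + ((D.filter fun x => I.c x = k ∧ I.c (η0 x) = l).card : ℝ) = (I.p : ℝ) := by
    exact_mod_cast h3
  linarith

/-- double counting -/
theorem double {η0 : I.H → I.H} {D : Finset I.H} (hD : ∀ x ∈ D, η0 x ∈ D) {u : I.H}
    (hu : u ∉ D) (l : Fin K) :
    ((((I.Hk (I.c u)) \ D).card : ℝ)) * ((I.Cls η0 D).filter fun η => I.c (η u) = l).card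
      = ∑ η ∈ I.Cls η0 D, ((((I.Hk (I.c u)) \ D).filter fun x => I.c (η x) = l).card : ℝ) := by
  have h1 : ∑ x ∈ (I.Hk (I.c u)) \ D, (((I.Cls η0 D).filter fun η => I.c (η x) = l).card : ℝ)
      = ((((I.Hk (I.c u)) \ D).card : ℝ)) *
        ((I.Cls η0 D).filter fun η => I.c (η u) = l).card := by
    rw [Finset.sum_congr rfl
      (g := fun _ => (((I.Cls η0 D).filter fun η => I.c (η u) = l).card : ℝ)),
      Finset.sum_const, nsmul_eq_mul]
    intro x hx
    rw [mem_sdiff] at hx
    have hcx : I.c x = I.c u := by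
      have := hx.1
      simpa only [Inst.Hk, mem_filter, mem_univ, true_and] using this
    rw [card_eq_left I hD hcx hx.2 hu l]
  rw [← h1]
  simp only [Finset.card_filter, Nat.cast_sum, Nat.cast_ite, Nat.cast_one, Nat.cast_zero]
  rw [Finset.sum_comm]

theorem main : KS.S_PL1 := by
  intro K Δ I hV η0 hη0 D hD u hu v hv hvu
  refine ⟨fun hne => ?_, fun heq => ?_⟩
  · have h1 := double I hD hu (I.c v)
    have h2 := m_eq I hD hu hv hvu
    have hno : u ∉ (I.Hk (I.c v)) \ D := by
      simp only [Inst.Hk, mem_sdiff, mem_filter, mem_univ, true_and]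
      exact fun h => hne h.1
    rw [Finset.erase_eq_of_notMem hno] at h2
    rw [Finset.sum_congr rfl (fun η hη => cnt I hη hne), Finset.sum_const, nsmul_eq_mul,
      h2] at h1
    push_cast at h1
    linarith
  · have h1 := double I hD hu (I.c v)
    have h2 := m_eq I hD hu hv hvu
    have hyes : u ∈ (I.Hk (I.c v)) \ D := by
      simp only [Inst.Hk, mem_sdiff, mem_filter, mem_univ, true_and]
      exact ⟨heq, hu⟩
    have hpos : 1 ≤ ((I.Hk (I.c v)) \ D).card := Finset.card_pos.mpr ⟨u, hyes⟩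
    rw [Finset.card_erase_of_mem hyes] at h2
    have h3 : ∀ η ∈ I.Cls η0 D,
        ((((I.Hk (I.c u)) \ D).filter fun x => I.c (η x) = I.c v).card : ℝ)
        = ((((I.Hk (I.c u)) \ D).card : ℝ) - ∑ l ∈ univ.filter (fun l : Fin K => l ≠ I.c u),
          ((I.p : ℝ) - (D.filter fun x => I.c x = I.c u ∧ I.c (η0 x) = l).card)) := by
      intro η hη
      have h4 : ((I.Hk (I.c u)) \ D).card
          = ∑ l : Fin K, (((I.Hk (I.c u)) \ D).filter fun x => I.c (η x) = l).card :=
        Finset.card_eq_sum_card_fiberwise (fun x _ => Finset.mem_coe.mpr (mem_univ _))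
      have h5 : (univ : Finset (Fin K)) = insert (I.c u) (univ.filter (fun l : Fin K => l ≠ I.c u)) := by
        ext l
        simp only [mem_univ, mem_insert, mem_filter, true_and, true_iff]
        tauto
      rw [h5, Finset.sum_insert (by simp)] at h4
      have h6 : (((I.Hk (I.c u)) \ D).card : ℝ)
          = ((((I.Hk (I.c u)) \ D).filter fun x => I.c (η x) = I.c u).card : ℝ)
            + ∑ l ∈ univ.filter (fun l : Fin K => l ≠ I.c u),
              ((((I.Hk (I.c u)) \ D).filter fun x => I.c (η x) = l).card : ℝ) := by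
        exact_mod_cast h4
      rw [Finset.sum_congr rfl (fun l hl => cnt I hη (by
        simp only [mem_filter, mem_univ, true_and] at hl
        exact fun e => hl e.symm))] at h6
      rw [← heq]
      linarith
    rw [Finset.sum_congr rfl h3, Finset.sum_const, nsmul_eq_mul, h2] at h1
    rw [← heq] at h1 hpos
    push_cast [Nat.cast_sub hpos] at h1
    linarith

end KS.PL1_helper16
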